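import Pool.Agent.W792.WA.Defs

/-!
Project WA, part INF, first half: averages over coordinates, the Efron-Stein decomposition.
-/

set_option autoImplicit false

namespace Pool.Agent.W308.WAInf

open MeasureTheory Pool.Agent.W792.WA

noncomputable section

/-! ### averages -/

section avg

variable {Γ : Type} [DecidableEq Γ] (ν : Measure ℝ) [IsProbabilityMeasure ν]

/-- replace the coordinates in `B` -/
def mix (B : Finset Γ) (v' v : Γ → ℝ) : Γ → ℝ := fun z => if z ∈ B then v' z else v z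

lemma mix_meas (B : Finset Γ) : Measurable (fun p : (Γ → ℝ) × (Γ → ℝ) => mix B p.2 p.1) := by
  refine measurable_pi_lambda _ fun z => ?_
  unfold mix
  by_cases h : z ∈ B
  · simp only [h, if_true]; fun_prop
  · simp only [h, if_false]; fun_prop

lemma mix_meas' (B : Finset Γ) : Measurable (fun p : (Γ → ℝ) × (Γ → ℝ) => mix B p.1 p.2) := by
  refine measurable_pi_lambda _ fun z => ?_
  unfold mix
  by_cases h : z ∈ B
  · simp only [h, if_true]; fun_prop
  · simp only [h, if_false]; fun_prop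

/-- exchange of the coordinates in `B` -/
def sg (B : Finset Γ) (p : (Γ → ℝ) × (Γ → ℝ)) : (Γ → ℝ) × (Γ → ℝ) :=
  (mix B p.2 p.1, mix B p.1 p.2)

lemma sg_meas (B : Finset Γ) : Measurable (sg B) := (mix_meas B).prodMk (mix_meas' B)

theorem sg_pres (B : Finset Γ) :
    ((Pn ν Γ).prod (Pn ν Γ)).map (sg B) = (Pn ν Γ).prod (Pn ν Γ) := by
  set Q : Measure (Bool × Γ → ℝ) := Measure.infinitePi (fun _ : Bool × Γ => ν) with hQ
  set Φ : (Bool × Γ → ℝ) → (Γ → ℝ) × (Γ → ℝ) :=
    fun ω => (fun z => ω (false, z), fun z => ω (true, z)) with hΦ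
  have hΦm : Measurable Φ := by
    rw [hΦ]
    fun_prop
  have h1 : Q.map Φ = (Pn ν Γ).prod (Pn ν Γ) := by
    have e1 := Measure.infinitePi_map_curry (ι := Bool) (κ := Γ) (X := ℝ) (fun _ _ => ν)
    have e2 := Measure.infinitePi_map_eval_prod (P := fun _ : Bool => Pn ν Γ)
      (i := false) (j := true) (by simp)
    rw [← e2]
    have e3 : Measure.infinitePi (fun _ : Bool => Pn ν Γ) =
        Q.map (MeasurableEquiv.curry Bool Γ ℝ) := e1.symm
    rw [e3, Measure.map_map (by fun_prop) (MeasurableEquiv.measurable _)]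
    rfl
  set e : Bool × Γ → Bool × Γ := fun p => (xor p.1 (decide (p.2 ∈ B)), p.2) with he
  have hinj : Function.Injective e := by
    rintro ⟨a, x⟩ ⟨b, y⟩ h
    rw [he] at h
    simp only [Prod.mk.injEq] at h
    obtain ⟨h2, rfl⟩ := h
    have : a = b := by
      by_cases hx : x ∈ B
      · simpa [hx] using h2
      · simpa [hx] using h2
    rw [this]
  have h3 : Q.map (fun ω i => ω (e i)) = Q :=
    Measure.map_infinitePi_infinitePi_of_inj (P := fun _ : Bool × Γ => ν) hinj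
  have h4 : sg B ∘ Φ = Φ ∘ (fun ω i => ω (e i)) := by
    funext ω
    have hf : ∀ z, e (false, z) = (decide (z ∈ B), z) := by
      intro z
      rw [he]
      simp
    have ht : ∀ z, e (true, z) = (!decide (z ∈ B), z) := by
      intro z
      rw [he]
      simp
    apply Prod.ext
    · funext z
      show mix B (fun z => ω (true, z)) (fun z => ω (false, z)) z = ω (e (false, z))
      rw [hf]
      unfold mix
      by_cases hz : z ∈ B <;> simp [hz]
    · funext z
      show mix B (fun z => ω (false, z)) (fun z => ω (true, z)) z = ω (e (true, z))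
      rw [ht]
      unfold mix
      by_cases hz : z ∈ B <;> simp [hz]
  have hem : Measurable (fun (ω : Bool × Γ → ℝ) (i : Bool × Γ) => ω (e i)) := by fun_prop
  rw [← h1, Measure.map_map (sg_meas B) hΦm, h4, ← Measure.map_map hΦm hem, h3]

theorem mix_pres (B : Finset Γ) :
    ((Pn ν Γ).prod (Pn ν Γ)).map (fun p => mix B p.2 p.1) = Pn ν Γ := by
  have h : (fun p : (Γ → ℝ) × (Γ → ℝ) => mix B p.2 p.1) = Prod.fst ∘ sg B := rfl
  rw [h, ← Measure.map_map measurable_fst (sg_meas B), sg_pres, Measure.map_fst_prod]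
  simp

/-- bounded measurable functions -/
def Vb (Γ : Type) : Submodule ℂ ((Γ → ℝ) → ℂ) where
  carrier := {f | Measurable f ∧ ∃ C : ℝ, ∀ v, ‖f v‖ ≤ C}
  add_mem' := by
    rintro f g ⟨hf, C, hC⟩ ⟨hg, D, hD⟩
    exact ⟨hf.add hg, C + D, fun v => (norm_add_le _ _).trans (add_le_add (hC v) (hD v))⟩
  zero_mem' := ⟨measurable_const, 0, fun v => by simp⟩
  smul_mem' := by
    rintro c f ⟨hf, C, hC⟩
    refine ⟨hf.const_smul c, ‖c‖ * C, fun v => ?_⟩
    rw [Pi.smul_apply, norm_smul]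
    exact mul_le_mul_of_nonneg_left (hC v) (norm_nonneg c)

lemma int_of {Ω : Type} [MeasurableSpace Ω] (μ : Measure Ω) [IsProbabilityMeasure μ]
    {f : Ω → ℂ} (hf : Measurable f) (hb : ∃ C : ℝ, ∀ v, ‖f v‖ ≤ C) : Integrable f μ := by
  obtain ⟨C, hC⟩ := hb
  exact Integrable.of_bound hf.aestronglyMeasurable C (Filter.Eventually.of_forall hC)

lemma avg_eq (B : Finset Γ) (f : (Γ → ℝ) → ℂ) (v : Γ → ℝ) :
    avg ν B f v = ∫ v', f (mix B v' v) ∂(Pn ν Γ) := rfl

lemma sec_mem (B : Finset Γ) {f : (Γ → ℝ) → ℂ} (hf : f ∈ Vb Γ) (v : Γ → ℝ) :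
    (fun v' => f (mix B v' v)) ∈ Vb Γ := by
  obtain ⟨h1, C, hC⟩ := hf
  exact ⟨h1.comp ((mix_meas' B).comp (measurable_id.prodMk measurable_const)), C,
    fun v' => hC _⟩

lemma avg_mem (B : Finset Γ) {f : (Γ → ℝ) → ℂ} (hf : f ∈ Vb Γ) : avg ν B f ∈ Vb Γ := by
  obtain ⟨h1, C, hC⟩ := hf
  refine ⟨?_, C, fun v => ?_⟩
  · have h2 : Measurable (fun p : (Γ → ℝ) × (Γ → ℝ) => f (mix B p.2 p.1)) :=
      h1.comp (mix_meas B)
    exact (h2.stronglyMeasurable.integral_prod_right (ν := Pn ν Γ)).measurable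
  · rw [avg_eq]
    refine (norm_integral_le_of_norm_le_const (C := C)
      (Filter.Eventually.of_forall fun v' => hC _)).trans ?_
    simp

/-- the averages as linear maps -/
def EV (B : Finset Γ) : Vb Γ →ₗ[ℂ] Vb Γ where
  toFun f := ⟨avg ν B f, avg_mem ν B f.2⟩
  map_add' f g := by
    apply Subtype.ext
    funext v
    show avg ν B (fun v => f.1 v + g.1 v) v = avg ν B f.1 v + avg ν B g.1 v
    rw [avg_eq, avg_eq, avg_eq]
    exact integral_add (int_of _ (sec_mem B f.2 v).1 (sec_mem B f.2 v).2)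
      (int_of _ (sec_mem B g.2 v).1 (sec_mem B g.2 v).2)
  map_smul' c f := by
    apply Subtype.ext
    funext v
    show avg ν B (fun v => c * f.1 v) v = c * avg ν B f.1 v
    rw [avg_eq, avg_eq]
    exact integral_const_mul c _

theorem EV_mul (B C : Finset Γ) : EV ν B * EV ν C = EV ν (B ∪ C) := by
  apply LinearMap.ext
  intro f
  apply Subtype.ext
  funext v
  show avg ν B (avg ν C f.1) v = avg ν (B ∪ C) f.1 v
  obtain ⟨h1, D, hD⟩ := f.2
  rw [avg_eq, avg_eq]
  simp only [avg_eq]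
  have hm : Measurable (fun p : (Γ → ℝ) × (Γ → ℝ) => f.1 (mix C p.2 (mix B p.1 v))) := by
    refine h1.comp ((mix_meas C).comp (Measurable.prodMk ?_ measurable_snd))
    exact (mix_meas' B).comp (measurable_fst.prodMk measurable_const)
  have hi : Integrable (fun p : (Γ → ℝ) × (Γ → ℝ) => f.1 (mix C p.2 (mix B p.1 v)))
      ((Pn ν Γ).prod (Pn ν Γ)) := int_of _ hm ⟨D, fun p => hD _⟩
  have e1 := integral_prod _ hi
  rw [← e1]
  have e2 : ∀ p : (Γ → ℝ) × (Γ → ℝ), mix C p.2 (mix B p.1 v) =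
      mix (B ∪ C) (mix C p.2 p.1) v := by
    intro p
    funext z
    unfold mix
    by_cases hC : z ∈ C <;> by_cases hB : z ∈ B <;> simp [hC, hB]
  simp only [e2]
  have e3 : ∫ u, f.1 (mix (B ∪ C) u v) ∂(Pn ν Γ) =
      ∫ u, f.1 (mix (B ∪ C) u v) ∂(((Pn ν Γ).prod (Pn ν Γ)).map (fun p => mix C p.2 p.1)) := by
    rw [mix_pres]
  rw [e3, integral_map (mix_meas C).aemeasurable]
  exact (sec_mem (B ∪ C) f.2 v).1.aestronglyMeasurable

theorem EV_empty : EV ν (∅ : Finset Γ) = 1 := by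
  apply LinearMap.ext
  intro f
  apply Subtype.ext
  funext v
  show avg ν ∅ f.1 v = f.1 v
  rw [avg_eq]
  have : ∀ v', mix (∅ : Finset Γ) v' v = v := fun v' => by
    funext z; unfold mix; simp
  simp only [this]
  simp

/-- the scalar product -/
def ip (f g : Vb Γ) : ℂ := ∫ v, (starRingEnd ℂ) (f.1 v) * g.1 v ∂(Pn ν Γ)

omit [DecidableEq Γ] in
lemma ip_int (f g : Vb Γ) :
    Integrable (fun v => (starRingEnd ℂ) (f.1 v) * g.1 v) (Pn ν Γ) := by
  obtain ⟨h1, D, hD⟩ := f.2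
  obtain ⟨h2, D', hD'⟩ := g.2
  refine int_of _ ((Complex.continuous_conj.measurable.comp h1).mul h2) ⟨D * D', fun v => ?_⟩
  rw [norm_mul, RCLike.norm_conj]
  exact mul_le_mul (hD v) (hD' v) (norm_nonneg _) ((norm_nonneg _).trans (hD v))

theorem ip_symm (B : Finset Γ) (f g : Vb Γ) : ip ν (EV ν B f) g = ip ν f (EV ν B g) := by
  obtain ⟨h1, D, hD⟩ := f.2
  obtain ⟨h2, D', hD'⟩ := g.2
  unfold ip
  show ∫ v, (starRingEnd ℂ) (avg ν B f.1 v) * g.1 v ∂(Pn ν Γ) =
    ∫ v, (starRingEnd ℂ) (f.1 v) * avg ν B g.1 v ∂(Pn ν Γ)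
  have hD0 : 0 ≤ D := (norm_nonneg _).trans (hD fun _ => 0)
  have e1 : ∀ v, (starRingEnd ℂ) (avg ν B f.1 v) * g.1 v =
      ∫ v', (starRingEnd ℂ) (f.1 (mix B v' v)) * g.1 v ∂(Pn ν Γ) := by
    intro v
    rw [avg_eq, ← integral_conj, integral_mul_const]
  have e2 : ∀ v, (starRingEnd ℂ) (f.1 v) * avg ν B g.1 v =
      ∫ v', (starRingEnd ℂ) (f.1 v) * g.1 (mix B v' v) ∂(Pn ν Γ) := by
    intro v
    rw [avg_eq, integral_const_mul]
  simp only [e1, e2]
  have hc := Complex.continuous_conj.measurable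
  have i1 : Integrable (fun p : (Γ → ℝ) × (Γ → ℝ) =>
      (starRingEnd ℂ) (f.1 (mix B p.2 p.1)) * g.1 p.1) ((Pn ν Γ).prod (Pn ν Γ)) := by
    refine int_of _ ((hc.comp (h1.comp (mix_meas B))).mul (h2.comp measurable_fst))
      ⟨D * D', fun p => ?_⟩
    rw [norm_mul, RCLike.norm_conj]
    exact mul_le_mul (hD _) (hD' _) (norm_nonneg _) hD0
  have i2 : Integrable (fun p : (Γ → ℝ) × (Γ → ℝ) =>
      (starRingEnd ℂ) (f.1 p.1) * g.1 (mix B p.2 p.1)) ((Pn ν Γ).prod (Pn ν Γ)) := by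
    refine int_of _ ((hc.comp (h1.comp measurable_fst)).mul (h2.comp (mix_meas B)))
      ⟨D * D', fun p => ?_⟩
    rw [norm_mul, RCLike.norm_conj]
    exact mul_le_mul (hD _) (hD' _) (norm_nonneg _) hD0
  have e3 := integral_prod _ i1
  have e4 := integral_prod _ i2
  rw [← e3, ← e4]
  have e5 : ∫ p, (starRingEnd ℂ) (f.1 (mix B p.2 p.1)) * g.1 p.1 ∂((Pn ν Γ).prod (Pn ν Γ)) =
      ∫ p, (starRingEnd ℂ) (f.1 (mix B p.2 p.1)) * g.1 p.1
        ∂(((Pn ν Γ).prod (Pn ν Γ)).map (sg B)) := by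
    rw [sg_pres]
  rw [e5, integral_map (sg_meas B).aemeasurable]
  · refine integral_congr_ae (Filter.Eventually.of_forall fun p => ?_)
    have e6 : mix B (sg B p).2 (sg B p).1 = p.1 := by
      funext z
      unfold sg mix
      by_cases hz : z ∈ B <;> simp [hz]
    show (starRingEnd ℂ) (f.1 (mix B (sg B p).2 (sg B p).1)) * g.1 (sg B p).1 = _
    rw [e6]
    rfl
  · exact ((hc.comp (h1.comp (mix_meas B))).mul (h2.comp measurable_fst)).aestronglyMeasurable

end avg

end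

end Pool.Agent.W308.WAInf
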