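import Pool.Agent.W792.WA.Stm
import Pool.Agent.W308.WA.Inf1

/-!
Project WA, part INF, second half: the Efron-Stein decomposition and the two inequalities.
-/

set_option autoImplicit false

namespace Pool.Agent.W308.WAInf

open MeasureTheory Pool.Agent.W792.WA

noncomputable section

/-! ### idempotents in a commutative ring -/

section alg

variable {R : Type} [CommRing R] {Γ : Type} [DecidableEq Γ] (e : Finset Γ → R)

/-- the projections of the decomposition -/
def pr (A S : Finset Γ) : R := (∏ z ∈ S, (1 - e {z})) * e (A \ S)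

variable (he : ∀ B C, e B * e C = e (B ∪ C)) (h0 : e ∅ = 1)
include he

lemma e_idem (B : Finset Γ) : e B * e B = e B := by rw [he, Finset.union_self]

lemma f_idem (z : Γ) : (1 - e {z}) * (1 - e {z}) = 1 - e {z} := by
  have := e_idem e he {z}
  linear_combination this

lemma fe_zero (z : Γ) (B : Finset Γ) (h : z ∈ B) : (1 - e {z}) * e B = 0 := by
  have h1 : e {z} * e B = e B := by
    rw [he, Finset.union_eq_right.2 (Finset.singleton_subset_iff.2 h)]
  linear_combination -h1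

include h0 in
lemma e_prod (T : Finset Γ) : e T = ∏ z ∈ T, e {z} := by
  induction T using Finset.induction_on with
  | empty => rw [h0, Finset.prod_empty]
  | insert a T ha ih =>
    rw [Finset.prod_insert ha, ← ih, he]
    rfl

include h0 in
lemma sum_pr (A : Finset Γ) : ∑ S ∈ A.powerset, pr e A S = 1 := by
  have h := Finset.prod_add (fun z => 1 - e {z}) (fun z => e {z}) A
  have h1 : ∏ z ∈ A, ((1 - e {z}) + e {z}) = 1 := by
    apply Finset.prod_eq_one
    intro z _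
    ring
  rw [h1] at h
  rw [h]
  refine Finset.sum_congr rfl fun S _ => ?_
  unfold pr
  rw [e_prod e he h0 (A \ S)]

lemma pr_idem (A S : Finset Γ) : pr e A S * pr e A S = pr e A S := by
  unfold pr
  have h1 : (∏ z ∈ S, (1 - e {z})) * ∏ z ∈ S, (1 - e {z}) = ∏ z ∈ S, (1 - e {z}) := by
    rw [← Finset.prod_mul_distrib]
    exact Finset.prod_congr rfl fun z _ => f_idem e he z
  have h2 := e_idem e he (A \ S)
  calc (∏ z ∈ S, (1 - e {z})) * e (A \ S) * ((∏ z ∈ S, (1 - e {z})) * e (A \ S)) =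
      ((∏ z ∈ S, (1 - e {z})) * ∏ z ∈ S, (1 - e {z})) * (e (A \ S) * e (A \ S)) := by ring
    _ = _ := by rw [h1, h2]

lemma pr_mul {A S B : Finset Γ} (hB : B ⊆ A) (hd : Disjoint S B) : pr e A S * e B = pr e A S := by
  unfold pr
  rw [mul_assoc, he, Finset.union_eq_left.2]
  intro z hz
  rw [Finset.mem_sdiff]
  exact ⟨hB hz, fun h => Finset.disjoint_left.1 hd h hz⟩

lemma pr_mul_zero {A S B : Finset Γ} (hd : ¬ Disjoint S B) : pr e A S * e B = 0 := by
  obtain ⟨z, hz1, hz2⟩ := Finset.not_disjoint_iff.1 hd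
  unfold pr
  rw [← Finset.mul_prod_erase S _ hz1]
  have h := fe_zero e he z B hz2
  calc (1 - e {z}) * (∏ x ∈ S.erase z, (1 - e {x})) * e (A \ S) * e B =
      ((1 - e {z}) * e B) * ((∏ x ∈ S.erase z, (1 - e {x})) * e (A \ S)) := by ring
    _ = 0 := by rw [h, zero_mul]

omit he in
lemma pr_fac {A S : Finset Γ} {z : Γ} (hz : z ∈ S) : ∃ q, pr e A S = q * (1 - e {z}) := by
  unfold pr
  refine ⟨(∏ x ∈ S.erase z, (1 - e {x})) * e (A \ S), ?_⟩
  rw [← Finset.mul_prod_erase S _ hz]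
  ring

end alg

/-! ### the action on functions -/

/-- finite sets with union as multiplication -/
def Sl (Γ : Type) : Type := Finset Γ

instance (Γ : Type) [DecidableEq Γ] : CommMonoid (Sl Γ) where
  mul a b := ((a : Finset Γ) ∪ (b : Finset Γ) : Finset Γ)
  mul_assoc a b c := Finset.union_assoc (α := Γ) _ _ _
  one := (∅ : Finset Γ)
  one_mul a := Finset.empty_union (α := Γ) _
  mul_one a := Finset.union_empty (α := Γ) _
  mul_comm a b := Finset.union_comm (α := Γ) _ _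

section act

variable {Γ : Type} [DecidableEq Γ] (ν : Measure ℝ) [IsProbabilityMeasure ν]

/-- generators -/
def ee (B : Finset Γ) : MonoidAlgebra ℂ (Sl Γ) := MonoidAlgebra.of ℂ (Sl Γ) B

lemma ee_mul (B C : Finset Γ) : ee B * ee C = ee (B ∪ C) :=
  ((MonoidAlgebra.of ℂ (Sl Γ)).map_mul B C).symm

lemma ee_empty : ee (∅ : Finset Γ) = 1 := (MonoidAlgebra.of ℂ (Sl Γ)).map_one

/-- the representation on bounded functions -/
def hm : Sl Γ →* Module.End ℂ (Vb Γ) where
  toFun B := EV ν B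
  map_one' := EV_empty ν
  map_mul' B C := (EV_mul ν B C).symm

/-- the representation on bounded functions -/
def rho : MonoidAlgebra ℂ (Sl Γ) →ₐ[ℂ] Module.End ℂ (Vb Γ) :=
  MonoidAlgebra.lift ℂ (Module.End ℂ (Vb Γ)) (Sl Γ) (hm ν)

lemma rho_ee (B : Finset Γ) : rho ν (ee B) = EV ν B := MonoidAlgebra.lift_of (hm ν) B

/-- the components -/
def cp (A S : Finset Γ) : Module.End ℂ (Vb Γ) := rho ν (pr ee A S)

lemma sum_cp (A : Finset Γ) (f : Vb Γ) : ∑ S ∈ A.powerset, cp ν A S f = f := by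
  have h := congrArg (rho ν) (sum_pr (ee : Finset Γ → MonoidAlgebra ℂ (Sl Γ)) ee_mul ee_empty A)
  rw [map_sum, map_one] at h
  have h2 := congrArg (fun T : Module.End ℂ (Vb Γ) => T f) h
  simpa [cp, LinearMap.sum_apply] using h2

lemma ip_add_left (f f' g : Vb Γ) : ip ν (f + f') g = ip ν f g + ip ν f' g := by
  unfold ip
  rw [← integral_add (ip_int ν f g) (ip_int ν f' g)]
  refine integral_congr_ae (Filter.Eventually.of_forall fun v => ?_)
  show (starRingEnd ℂ) (f.1 v + f'.1 v) * g.1 v = _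
  rw [map_add]
  ring

lemma ip_add_right (f g g' : Vb Γ) : ip ν f (g + g') = ip ν f g + ip ν f g' := by
  unfold ip
  rw [← integral_add (ip_int ν f g) (ip_int ν f g')]
  refine integral_congr_ae (Filter.Eventually.of_forall fun v => ?_)
  show (starRingEnd ℂ) (f.1 v) * (g.1 v + g'.1 v) = _
  ring

lemma ip_sub_left (f f' g : Vb Γ) : ip ν (f - f') g = ip ν f g - ip ν f' g := by
  have := ip_add_left ν (f - f') f' g
  rw [sub_add_cancel] at this
  rw [this]
  ring

lemma ip_sub_right (f g g' : Vb Γ) : ip ν f (g - g') = ip ν f g - ip ν f g' := by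
  have := ip_add_right ν f (g - g') g'
  rw [sub_add_cancel] at this
  rw [this]
  ring

lemma ip_sum_right {ι : Type} (s : Finset ι) (f : Vb Γ) (g : ι → Vb Γ) :
    ip ν f (∑ i ∈ s, g i) = ∑ i ∈ s, ip ν f (g i) := by
  classical
  induction s using Finset.induction_on with
  | empty =>
    rw [Finset.sum_empty, Finset.sum_empty]
    unfold ip
    simp
  | insert a s ha ih => rw [Finset.sum_insert ha, Finset.sum_insert ha, ip_add_right, ih]

/-- symmetric elements -/
def Sy (a : MonoidAlgebra ℂ (Sl Γ)) : Prop := ∀ f g, ip ν (rho ν a f) g = ip ν f (rho ν a g)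

lemma Sy_one : Sy ν (1 : MonoidAlgebra ℂ (Sl Γ)) := by
  intro f g
  rw [map_one]
  rfl

lemma Sy_mul {a b : MonoidAlgebra ℂ (Sl Γ)} (ha : Sy ν a) (hb : Sy ν b) : Sy ν (a * b) := by
  intro f g
  have h1 : rho ν (a * b) f = rho ν a (rho ν b f) := by rw [map_mul]; rfl
  have h2 : rho ν (a * b) g = rho ν b (rho ν a g) := by rw [mul_comm, map_mul]; rfl
  rw [h1, h2, ha, hb]

lemma Sy_ee (B : Finset Γ) : Sy ν (ee B) := by
  intro f g
  rw [rho_ee]
  exact ip_symm ν B f g

lemma Sy_sub {a b : MonoidAlgebra ℂ (Sl Γ)} (ha : Sy ν a) (hb : Sy ν b) : Sy ν (a - b) := by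
  intro f g
  rw [map_sub, LinearMap.sub_apply, LinearMap.sub_apply, ip_sub_left, ip_sub_right, ha, hb]

lemma Sy_pr (A S : Finset Γ) : Sy ν (pr ee A S) := by
  unfold pr
  refine Sy_mul ν ?_ (Sy_ee ν _)
  exact Finset.prod_induction _ (Sy ν) (fun a b => Sy_mul ν) (Sy_one ν)
    (fun z _ => Sy_sub ν (Sy_one ν) (Sy_ee ν _))

/-- squared norm -/
def nq (f : Vb Γ) : ℝ := ∫ v, ‖f.1 v‖ ^ 2 ∂(Pn ν Γ)

lemma nq_nonneg (f : Vb Γ) : 0 ≤ nq ν f := integral_nonneg fun v => by positivity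

lemma ip_self (f : Vb Γ) : ip ν f f = (nq ν f : ℂ) := by
  unfold ip nq
  have h := integral_ofReal (𝕜 := ℂ) (μ := Pn ν Γ) (f := fun v => ‖f.1 v‖ ^ 2)
  refine Eq.trans ?_ h
  refine integral_congr_ae (Filter.Eventually.of_forall fun v => ?_)
  show (starRingEnd ℂ) (f.1 v) * f.1 v = ((‖f.1 v‖ ^ 2 : ℝ) : ℂ)
  rw [mul_comm, Complex.mul_conj, Complex.normSq_eq_norm_sq]

theorem parseval (A : Finset Γ) (f : Vb Γ) : nq ν f = ∑ S ∈ A.powerset, nq ν (cp ν A S f) := by
  have h : ip ν f f = ∑ S ∈ A.powerset, ip ν (cp ν A S f) (cp ν A S f) := by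
    have h1 : ip ν f f = ip ν f (∑ S ∈ A.powerset, cp ν A S f) := by rw [sum_cp]
    rw [h1, ip_sum_right]
    refine Finset.sum_congr rfl fun S _ => ?_
    have h2 : cp ν A S f = cp ν A S (cp ν A S f) := by
      unfold cp
      have h3 := congrArg (rho ν) (pr_idem (ee : Finset Γ → MonoidAlgebra ℂ (Sl Γ)) ee_mul A S)
      rw [map_mul] at h3
      exact (congrArg (fun T : Module.End ℂ (Vb Γ) => T f) h3).symm
    have h4 : ip ν f (cp ν A S (cp ν A S f)) = ip ν (cp ν A S f) (cp ν A S f) :=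
      (Sy_pr ν A S f (cp ν A S f)).symm
    rw [← h4, ← h2]
  rw [ip_self] at h
  have h2 : (nq ν f : ℂ) = ((∑ S ∈ A.powerset, nq ν (cp ν A S f) : ℝ) : ℂ) := by
    rw [h]
    push_cast
    exact Finset.sum_congr rfl fun S _ => ip_self ν _
  exact_mod_cast h2

omit [DecidableEq Γ] in
/-- functions of bounded degree are bounded and measurable -/
lemma dg_mem {N : ℕ} {f : (Γ → ℝ) → ℂ} (hf : IsDg N f) : f ∈ Vb Γ := by
  obtain ⟨n, S, g, -, hg1, hg2, -, hg3⟩ := hf
  have h : f = ∑ i, g i := by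
    funext v
    rw [hg3, Finset.sum_apply]
  rw [h]
  exact Submodule.sum_mem _ fun i _ => ⟨hg1 i, hg2 i⟩

lemma EV_fix {z : Γ} {g : Vb Γ} (h : ∀ v v', (∀ y, y ≠ z → v y = v' y) → g.1 v = g.1 v') :
    EV ν {z} g = g := by
  apply Subtype.ext
  funext v
  show avg ν {z} g.1 v = g.1 v
  rw [avg_eq]
  have : ∀ v', g.1 (mix {z} v' v) = g.1 v := by
    intro v'
    apply h
    intro y hy
    unfold mix
    rw [if_neg (by simpa using hy)]
  simp only [this]
  simp

/-- components of large degree vanish -/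
theorem cp_dg {N : ℕ} {f : Vb Γ} (hf : IsDg N f.1) (A : Finset Γ) {S : Finset Γ}
    (hS : N < S.card) : cp ν A S f = 0 := by
  obtain ⟨n, T, g, hT, hg1, hg2, hg4, hg3⟩ := hf
  have h : f = ∑ i, (⟨g i, ⟨hg1 i, hg2 i⟩⟩ : Vb Γ) := by
    apply Subtype.ext
    funext v
    rw [hg3]
    simp
  rw [h, map_sum]
  apply Finset.sum_eq_zero
  intro i _
  obtain ⟨z, hz1, hz2⟩ : ∃ z ∈ S, z ∉ T i := by
    by_contra hcon
    push Not at hcon
    have := Finset.card_le_card (show S ⊆ T i from hcon)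
    have := hT i
    omega
  obtain ⟨q, hq⟩ := pr_fac (ee : Finset Γ → MonoidAlgebra ℂ (Sl Γ)) (A := A) hz1
  unfold cp
  rw [hq, map_mul, map_sub, map_one, rho_ee]
  have h5 : EV ν {z} (⟨g i, ⟨hg1 i, hg2 i⟩⟩ : Vb Γ) = ⟨g i, ⟨hg1 i, hg2 i⟩⟩ := by
    apply EV_fix
    intro v v' hv
    apply hg4
    intro y hy
    apply hv
    rintro rfl
    exact hz2 hy
  show rho ν q ((1 - EV ν {z}) (⟨g i, ⟨hg1 i, hg2 i⟩⟩ : Vb Γ)) = 0
  rw [LinearMap.sub_apply, h5]
  simp

/-- components away from the block vanish -/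
theorem cp_zero {f : Vb Γ} {A B S : Finset Γ} (hB : B ⊆ A) (hd : Disjoint S B)
    (hf : EV ν B f = 0) : cp ν A S f = 0 := by
  unfold cp
  rw [← pr_mul (ee : Finset Γ → MonoidAlgebra ℂ (Sl Γ)) ee_mul hB hd, map_mul, rho_ee]
  show rho ν (pr ee A S) (EV ν B f) = 0
  rw [hf, map_zero]

/-- components of `f - E_B f` -/
theorem cp_sub (f : Vb Γ) {A B S : Finset Γ} (hB : B ⊆ A) :
    cp ν A S (f - EV ν B f) = if Disjoint S B then 0 else cp ν A S f := by
  have h1 : cp ν A S (EV ν B f) = rho ν (pr ee A S * ee B) f := by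
    rw [map_mul, rho_ee]
    rfl
  rw [map_sub, h1]
  split_ifs with hd
  · rw [pr_mul (ee : Finset Γ → MonoidAlgebra ℂ (Sl Γ)) ee_mul hB hd]
    exact sub_self _
  · rw [pr_mul_zero (ee : Finset Γ → MonoidAlgebra ℂ (Sl Γ)) ee_mul hd, map_zero]
    exact sub_zero _

omit [DecidableEq Γ] in
/-- Cauchy-Schwarz -/
theorem nq_sum {ι : Type} (Y : Finset ι) (c : ι → Vb Γ) (r : ι → ℂ) (δ : ℝ)
    (hr : ∀ i, ‖r i‖ ≤ δ) :
    nq ν (∑ y ∈ Y, r y • c y) ≤ Y.card * δ ^ 2 * ∑ y ∈ Y, nq ν (c y) := by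
  unfold nq
  have hi : ∀ f : Vb Γ, Integrable (fun v => ‖f.1 v‖ ^ 2) (Pn ν Γ) := by
    intro f
    obtain ⟨h1, C, hC⟩ := f.2
    refine Integrable.of_bound (h1.norm.pow_const 2).aestronglyMeasurable (C ^ 2)
      (Filter.Eventually.of_forall fun v => ?_)
    rw [Real.norm_eq_abs, abs_of_nonneg (by positivity)]
    exact pow_le_pow_left₀ (norm_nonneg _) (hC v) 2
  rw [← integral_finsetSum Y (fun y _ => hi (c y)), ← integral_const_mul]
  refine integral_mono (hi _) (Integrable.const_mul (integrable_finsetSum _ fun y _ => hi (c y)) _)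
    fun v => ?_
  have e1 : (∑ y ∈ Y, r y • c y : Vb Γ).1 v = ∑ y ∈ Y, r y * (c y).1 v := by
    simp
  show ‖(∑ y ∈ Y, r y • c y : Vb Γ).1 v‖ ^ 2 ≤ _
  rw [e1]
  have e2 : ‖∑ y ∈ Y, r y * (c y).1 v‖ ≤ ∑ y ∈ Y, δ * ‖(c y).1 v‖ := by
    refine (norm_sum_le _ _).trans (Finset.sum_le_sum fun y _ => ?_)
    rw [norm_mul]
    exact mul_le_mul_of_nonneg_right (hr y) (norm_nonneg _)
  calc ‖∑ y ∈ Y, r y * (c y).1 v‖ ^ 2 ≤ (∑ y ∈ Y, δ * ‖(c y).1 v‖) ^ 2 :=
        pow_le_pow_left₀ (norm_nonneg _) e2 2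
    _ ≤ Y.card * ∑ y ∈ Y, (δ * ‖(c y).1 v‖) ^ 2 := sq_sum_le_card_mul_sum_sq
    _ = Y.card * δ ^ 2 * ∑ y ∈ Y, ‖(c y).1 v‖ ^ 2 := by
        rw [mul_assoc, Finset.mul_sum (a := δ ^ 2)]
        congr 1
        exact Finset.sum_congr rfl fun y _ => by ring

end act

/-! ### boxes -/

section box

variable {d : ℕ}

lemma bx_symm (R : ℕ) (x y : Fin d → ℤ) : x ∈ bx R y ↔ y ∈ bx R x := by
  unfold bx
  rw [Finset.mem_Icc, Finset.mem_Icc, Pi.le_def, Pi.le_def, Pi.le_def, Pi.le_def]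
  constructor
  · rintro ⟨h1, h2⟩
    exact ⟨fun i => by have := h2 i; linarith, fun i => by have := h1 i; linarith⟩
  · rintro ⟨h1, h2⟩
    exact ⟨fun i => by have := h2 i; linarith, fun i => by have := h1 i; linarith⟩

lemma bx_card (R : ℕ) (x : Fin d → ℤ) : (bx R x).card = (2 * R + 1) ^ d := by
  unfold bx
  rw [Pi.card_Icc]
  have : ∀ i : Fin d, (Finset.Icc (x i - (R : ℤ)) (x i + R)).card = 2 * R + 1 := by
    intro i
    rw [Int.card_Icc]
    omega
  rw [Finset.prod_congr rfl fun i _ => this i]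
  simp

lemma bx_count (R N : ℕ) (Y S : Finset (Fin d → ℤ)) (hS : S.card ≤ N) :
    (Y.filter fun y => ¬ Disjoint S (bx R y)).card ≤ N * (2 * R + 1) ^ d := by
  have hsub : (Y.filter fun y => ¬ Disjoint S (bx R y)) ⊆ S.biUnion (bx R) := by
    intro y hy
    obtain ⟨z, hz1, hz2⟩ := Finset.not_disjoint_iff.1 (Finset.mem_filter.1 hy).2
    exact Finset.mem_biUnion.2 ⟨z, hz1, (bx_symm R z y).1 hz2⟩
  refine (Finset.card_le_card hsub).trans ?_
  refine (Finset.card_biUnion_le_card_mul S (bx R) ((2 * R + 1) ^ d)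
    fun z _ => (bx_card R z).le).trans ?_
  exact Nat.mul_le_mul_right _ hS

end box

theorem main : S_INF := by
  classical
  intro ν _ d R L N δ X Y F r hδ hdg havg hr
  obtain ⟨FV, hFV⟩ : ∃ FV : (Fin d → ℤ) → Vb (Fin d → ℤ), ∀ y, (FV y).1 = F y :=
    ⟨fun y => ⟨F y, dg_mem (hdg y)⟩, fun y => rfl⟩
  obtain ⟨GV, hGV⟩ : ∃ GV : (Fin d → ℤ) → Vb (Fin d → ℤ),
      ∀ x, GV x = ∑ y ∈ Y, r (x - y) • FV y := ⟨fun x => ∑ y ∈ Y, r (x - y) • FV y, fun x => rfl⟩
  have hGv : ∀ x, (GV x).1 = fun v => ∑ y ∈ Y, r (x - y) * F y v := by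
    intro x
    funext v
    rw [hGV]
    simp [hFV]
  have hnF : ∀ y, ∫ v, ‖F y v‖ ^ 2 ∂(Pn ν (Fin d → ℤ)) = nq ν (FV y) := by
    intro y
    unfold nq
    rw [hFV]
  set K : ℝ := N * (2 * R + 1) ^ d * δ ^ 2 with hK
  have hK0 : 0 ≤ K := by rw [hK]; positivity
  set A : Finset (Fin d → ℤ) := Y.biUnion (bx R) ∪ X.biUnion (bx L) with hA
  have hAY : ∀ y ∈ Y, bx R y ⊆ A := fun y hy =>
    (Finset.subset_biUnion_of_mem (bx R) hy).trans Finset.subset_union_left
  have hAX : ∀ x ∈ X, bx L x ⊆ A := fun x hx =>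
    (Finset.subset_biUnion_of_mem (bx L) hx).trans Finset.subset_union_right
  have hdgV : ∀ y, IsDg N (FV y).1 := fun y => by rw [hFV]; exact hdg y
  have hbig : ∀ S : Finset (Fin d → ℤ), N < S.card → ∀ y, cp ν A S (FV y) = 0 :=
    fun S hS y => cp_dg ν (hdgV y) A hS
  have hEV : ∀ y, EV ν (bx R y) (FV y) = 0 := by
    intro y
    apply Subtype.ext
    funext v
    show avg ν (bx R y) (FV y).1 v = 0
    rw [hFV]
    exact havg y v
  -- the key bound
  have key : ∀ x S, nq ν (cp ν A S (GV x)) ≤ K * ∑ y ∈ Y, nq ν (cp ν A S (FV y)) := by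
    intro x S
    have e1 : cp ν A S (GV x) = ∑ y ∈ Y, r (x - y) • cp ν A S (FV y) := by
      rw [hGV, map_sum]
      exact Finset.sum_congr rfl fun y _ => map_smul _ _ _
    rcases lt_or_ge N S.card with hS | hS
    · have e2 : cp ν A S (GV x) = 0 := by
        rw [e1]
        apply Finset.sum_eq_zero
        intro y _
        rw [hbig S hS y, smul_zero]
      rw [e2]
      have e3 : nq ν (0 : Vb (Fin d → ℤ)) = 0 := by
        unfold nq
        simp
      rw [e3]
      exact mul_nonneg hK0 (Finset.sum_nonneg fun y _ => nq_nonneg ν _)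
    · have e2 : cp ν A S (GV x) =
          ∑ y ∈ Y.filter (fun y => ¬ Disjoint S (bx R y)), r (x - y) • cp ν A S (FV y) := by
        rw [e1, Finset.sum_filter]
        refine Finset.sum_congr rfl fun y hy => ?_
        by_cases hd : Disjoint S (bx R y)
        · rw [if_neg (not_not.2 hd), cp_zero ν (hAY y hy) hd (hEV y), smul_zero]
        · rw [if_pos hd]
      rw [e2]
      refine (nq_sum ν _ _ (fun y => r (x - y)) δ (fun y => hr _)).trans ?_
      have e3 : ((Y.filter (fun y => ¬ Disjoint S (bx R y))).card : ℝ) ≤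
          N * (2 * R + 1) ^ d := by
        exact_mod_cast bx_count R N Y S hS
      have e4 : ∑ y ∈ Y.filter (fun y => ¬ Disjoint S (bx R y)), nq ν (cp ν A S (FV y)) ≤
          ∑ y ∈ Y, nq ν (cp ν A S (FV y)) :=
        Finset.sum_le_sum_of_subset_of_nonneg (Finset.filter_subset _ _)
          fun y _ _ => nq_nonneg ν _
      refine mul_le_mul ?_ e4 (Finset.sum_nonneg fun y _ => nq_nonneg ν _) hK0
      rw [hK]
      exact mul_le_mul_of_nonneg_right e3 (by positivity)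
  have hpar : ∑ S ∈ A.powerset, ∑ y ∈ Y, nq ν (cp ν A S (FV y)) = ∑ y ∈ Y, nq ν (FV y) := by
    rw [Finset.sum_comm]
    exact Finset.sum_congr rfl fun y _ => (parseval ν A (FV y)).symm
  simp only [hnF]
  refine ⟨fun x => ?_, ?_⟩
  · have e1 : ∫ v, ‖∑ y ∈ Y, r (x - y) * F y v‖ ^ 2 ∂(Pn ν (Fin d → ℤ)) = nq ν (GV x) := by
      unfold nq
      rw [hGv]
    rw [e1, parseval ν A]
    refine (Finset.sum_le_sum fun S _ => key x S).trans ?_
    rw [← Finset.mul_sum, hpar]
  · have e1 : ∀ x, ∫ v, ‖∑ y ∈ Y, r (x - y) * F y v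
        - avg ν (bx L x) (fun v' => ∑ y ∈ Y, r (x - y) * F y v') v‖ ^ 2 ∂(Pn ν (Fin d → ℤ)) =
        nq ν (GV x - EV ν (bx L x) (GV x)) := by
      intro x
      unfold nq
      refine integral_congr_ae (Filter.Eventually.of_forall fun v => ?_)
      show _ = ‖(GV x).1 v - avg ν (bx L x) (GV x).1 v‖ ^ 2
      rw [hGv]
    simp only [e1]
    have e2 : ∀ x ∈ X, nq ν (GV x - EV ν (bx L x) (GV x)) ≤
        ∑ S ∈ A.powerset, (if ¬ Disjoint S (bx L x) then
          K * ∑ y ∈ Y, nq ν (cp ν A S (FV y)) else 0) := by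
      intro x hx
      rw [parseval ν A]
      refine Finset.sum_le_sum fun S _ => ?_
      rw [cp_sub ν (GV x) (hAX x hx)]
      by_cases hd : Disjoint S (bx L x)
      · rw [if_pos hd, if_neg (not_not.2 hd)]
        unfold nq
        simp
      · rw [if_neg hd, if_pos hd]
        exact key x S
    refine (Finset.sum_le_sum e2).trans ?_
    rw [Finset.sum_comm]
    have e3 : ∀ S ∈ A.powerset, ∑ x ∈ X, (if ¬ Disjoint S (bx L x) then
        K * ∑ y ∈ Y, nq ν (cp ν A S (FV y)) else 0) ≤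
        (N * (2 * L + 1) ^ d : ℝ) * (K * ∑ y ∈ Y, nq ν (cp ν A S (FV y))) := by
      intro S _
      rw [← Finset.sum_filter, Finset.sum_const, nsmul_eq_mul]
      rcases lt_or_ge N S.card with hS | hS
      · have e4 : ∑ y ∈ Y, nq ν (cp ν A S (FV y)) = 0 := by
          apply Finset.sum_eq_zero
          intro y _
          rw [hbig S hS y]
          unfold nq
          simp
        rw [e4]
        simp
      · have e4 : ((X.filter (fun y => ¬ Disjoint S (bx L y))).card : ℝ) ≤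
            N * (2 * L + 1) ^ d := by
          exact_mod_cast bx_count L N X S hS
        exact mul_le_mul_of_nonneg_right e4
          (mul_nonneg hK0 (Finset.sum_nonneg fun y _ => nq_nonneg ν _))
    refine (Finset.sum_le_sum e3).trans (le_of_eq ?_)
    rw [← Finset.mul_sum, ← Finset.mul_sum, hpar, hK]
    ring

end

end Pool.Agent.W308.WAInf
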